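import Mathlib
import Pool.Agent.H16.Cea3

set_option autoImplicit false

namespace Pool.Agent.Results.MP_f76ce6_lc.Yes

open Pool.Agent.H16.Cea

theorem result : ∃ (σ : Sig) (L : Laws σ), NontrivialVar L ∧ LawsCE L ∧
    ∀ n : ℕ, 1 ≤ n → Red (Iso L n) (Iso L (n + 1)) ∧ Red (Iso L (n + 1)) (Iso L n) ∧
      ¬ S3Complete (Iso L n) ∧
      ∀ E : ℕ → ℕ → Prop, S3Complete E → Red (Iso L n) E ∧ ¬ Red E (Iso L n) :=
  ⟨sInf', ∅, nontriv_empty _, lawsCE_empty _, fun n _ =>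
    ⟨red_inf (inv_inf n) _, red_inf (inv_inf (n + 1)) _, not_complete n, below n⟩⟩

end Pool.Agent.Results.MP_f76ce6_lc.Yes
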